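import Pool.Agent.TH262.FI.PolyFin

/-!
Self-avoiding polygons and walks on `ℤ^d`: the inequality `α ≤ ν max(0, 4 - d - 2 η)`.
-/

set_option autoImplicit false

open Filter Topology

namespace Pool.Agent.Results.MP_c0584e_pr.PolygonExponentBound

/-- `ω` is an `n`-step self-avoiding walk on `ℤ^d` started at the origin. -/
def IsSAW (d n : ℕ) (ω : Fin (n + 1) → Fin d → ℤ) : Prop :=
  ω 0 = 0 ∧ (∀ i : Fin n, ∑ k, |ω i.succ k - ω i.castSucc k| = 1) ∧ Function.Injective ω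

/-- `C_n`: the number of `n`-step self-avoiding walks from the origin -/
noncomputable def C (d n : ℕ) : ℕ := {ω | IsSAW d n ω}.ncard

/-- `C_n(z)`: the number of `n`-step self-avoiding walks from the origin to `z` -/
noncomputable def Cz (d n : ℕ) (z : Fin d → ℤ) : ℕ := {ω | IsSAW d n ω ∧ ω (Fin.last n) = z}.ncard

/-- `ω` is a (rooted, oriented) self-avoiding polygon of length `n` -/
def IsSAP (d n : ℕ) (ω : Fin (n + 1) → Fin d → ℤ) : Prop :=
  ω 0 = 0 ∧ ω (Fin.last n) = 0 ∧ (∀ i : Fin n, ∑ k, |ω i.succ k - ω i.castSucc k| = 1) ∧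
  ∀ i j : Fin (n + 1), (i : ℕ) < n → (j : ℕ) < n → ω i = ω j → i = j

/-- `A_n`: the number of self-avoiding polygons of length `n` -/
noncomputable def A (d n : ℕ) : ℕ := {ω | IsSAP d n ω}.ncard

/-- the Euclidean norm -/
noncomputable def norm2 {d : ℕ} (z : Fin d → ℤ) : ℝ := Real.sqrt (∑ k, ((z k : ℤ) : ℝ) ^ 2)

/-- `⟨|ω(n)|^p⟩`, the average over the `n`-step self-avoiding walks -/
noncomputable def moment (d : ℕ) (p : ℝ) (n : ℕ) : ℝ :=
  (∑ᶠ ω ∈ {ω : Fin (n + 1) → Fin d → ℤ | IsSAW d n ω}, norm2 (ω (Fin.last n)) ^ p) / (C d n : ℝ)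

/-- `μ` is the connective constant -/
def IsMu (d : ℕ) (μ : ℝ) : Prop :=
  Tendsto (fun n : ℕ => (C d n : ℝ) ^ (1 / (n : ℝ))) atTop (𝓝 μ)

/-- `⟨|ω(n)|^p⟩ = n^(p ν + o(1))` for every `p > 0` -/
def HasNu (d : ℕ) (ν : ℝ) : Prop :=
  ∀ p : ℝ, 0 < p →
    Tendsto (fun n : ℕ => Real.log (moment d p n) / Real.log n) atTop (𝓝 (p * ν))

/-- `∑_n μ^(-n) C_n(z)` converges for all but finitely many `z` and is `|z|^(-(d - 2 + η) + o(1))` -/
def HasEta (d : ℕ) (μ η : ℝ) : Prop :=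
  (∀ᶠ z : Fin d → ℤ in cofinite, Summable fun n : ℕ => (Cz d n z : ℝ) / μ ^ n) ∧
  Tendsto (fun z : Fin d → ℤ => Real.log (∑' n : ℕ, (Cz d n z : ℝ) / μ ^ n) / Real.log (norm2 z))
    cofinite (𝓝 (-((d : ℝ) - 2 + η)))

/-- `μ^(-n) A_n` is positive and equal to `n^(α - 2 + o(1))` along the even integers `n` -/
def HasAlpha (d : ℕ) (μ α : ℝ) : Prop :=
  (∀ᶠ k : ℕ in atTop, 0 < A d (2 * k)) ∧
  Tendsto (fun k : ℕ => Real.log ((A d (2 * k) : ℝ) / μ ^ (2 * k)) / Real.log ((2 * k : ℕ) : ℝ))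
    atTop (𝓝 (α - 2))

/-- **Theorem.** Let `d ≥ 1` and let `μ` be the connective constant of `ℤ^d`. If the exponents `ν`
(common to all moments), `η` and `α` exist, then `α ≤ ν max(0, 4 - d - 2 η)`; so if Fisher's
relation gives `γ = ν (2 - η)`, then `α ≤ max(0, 2 γ - d ν)`. -/
theorem result : ∀ d : ℕ, 1 ≤ d → ∀ μ : ℝ, IsMu d μ → ∀ ν η α : ℝ,
    HasNu d ν → HasEta d μ η → HasAlpha d μ α →
    α ≤ ν * max 0 (4 - d - 2 * η) ∧
    ∀ γ : ℝ, γ = ν * (2 - η) → α ≤ max 0 (2 * γ - d * ν) := by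
  intro d hd μ hμ ν η α hν hη hα
  have e : ∀ (p : ℝ) (n : ℕ), moment d p n = Pool.Agent.TH262.FI.mom d p n := by
    intro p n
    unfold moment Pool.Agent.TH262.FI.mom
    congr 1
    rw [← finsum_mem_coe_finset]
    have h : {ω : Fin (n + 1) → Fin d → ℤ | IsSAW d n ω} =
        (Pool.Agent.TH262.FI.S d n : Set (Fin (n + 1) → Fin d → ℤ)) := by
      ext ω
      rw [Finset.mem_coe, Pool.Agent.TH262.FI.mem_S]
      rfl
    rw [h]
    rfl
  have hν' : ∀ p : ℝ, 0 < p → Tendsto (fun n : ℕ =>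
      Real.log (Pool.Agent.TH262.FI.mom d p n) / Real.log n) atTop (𝓝 (p * ν)) := by
    intro p hp
    refine (hν p hp).congr fun n => ?_
    rw [e]
  have hν0 := Pool.Agent.TH262.FI.nu_nonneg hd hν'
  have hμ1 : 1 ≤ μ := Pool.Agent.TH262.FI.one_le_mu hd hμ
  have hμ0 : 0 < μ := by linarith
  have hα' : ∀ ε : ℝ, 0 < ε → ∀ᶠ k : ℕ in atTop,
      ((2 * k : ℕ) : ℝ) ^ (α - 2 - ε) ≤
        (Pool.Agent.TH262.FI.A d (2 * k) : ℝ) / μ ^ (2 * k) := by
    intro ε hε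
    have h1 := hα.2.eventually (lt_mem_nhds (show α - 2 - ε < α - 2 by linarith))
    filter_upwards [h1, hα.1, eventually_ge_atTop 1] with k h1 h2 hk
    have h3 : (0 : ℝ) < (A d (2 * k) : ℝ) := by exact_mod_cast h2
    exact Pool.Agent.TH262.FI.pow_lower (by exact_mod_cast (by omega : 1 < 2 * k))
      (by positivity) h1
  have main := Pool.Agent.TH262.FI.final_poly hd hμ hν' hη.1 hη.2 hα'
  refine ⟨main, fun γ hγ => main.trans (le_of_eq ?_)⟩
  rw [mul_max_of_nonneg _ _ hν0, mul_zero]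
  congr 1
  rw [hγ]
  ring

end Pool.Agent.Results.MP_c0584e_pr.PolygonExponentBound
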