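import Pool.Agent.TH508.LT.Gap2
import Pool.Agent.W387.Q.Hyp
import Pool.Agent.H976R2.KConv

/-!
Self-avoiding polygons and walks on `ℤ²`: `A_n / C_n ≥ exp(-K (log n)²)`.
-/

set_option autoImplicit false

namespace Pool.Agent.Results.MP_c0584e_pr.PolygonWalkRatio

open Filter Topology

/-- `ω` is a self-avoiding walk with `n` steps on `ℤ²`, started at the origin. -/
def IsSAW (n : ℕ) (ω : Fin (n + 1) → ℤ × ℤ) : Prop :=
  ω 0 = (0, 0) ∧
  (∀ i : Fin n, |(ω i.succ).1 - (ω i.castSucc).1| + |(ω i.succ).2 - (ω i.castSucc).2| = 1) ∧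
  Function.Injective ω

/-- the number `C_n` of `n`-step self-avoiding walks on `ℤ²` started at the origin -/
noncomputable def C (n : ℕ) : ℕ := Nat.card {ω : Fin (n + 1) → ℤ × ℤ // IsSAW n ω}

/-- `f` is a self-avoiding polygon of length `n` as a rooted, oriented path: `f(0) = 0`, the points
`f(0), ..., f(n-1)` are distinct, consecutive points (cyclically) are neighbours. -/
def IsPolygon (n : ℕ) (f : ZMod n → ℤ × ℤ) : Prop :=
  f 0 = 0 ∧ Function.Injective f ∧
    ∀ i : ZMod n, |(f (i + 1)).1 - (f i).1| + |(f (i + 1)).2 - (f i).2| = 1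

/-- the number `A_n` of rooted, oriented self-avoiding polygons of length `n` -/
noncomputable def A (n : ℕ) : ℕ := Nat.card {f : ZMod n → ℤ × ℤ // IsPolygon n f}

lemma C_eq' (n : ℕ) : (C n : ℝ) = ((Pool.Agent.H976R2.SW n).card : ℝ) := by
  rw [show C n = H981.C n from rfl, Pool.Agent.H739K.SWR.card_eq_cr', H981.cr'_eq]

lemma A_eq (N : ℕ) (hN : 2 ≤ N) : (A (2 * N) : ℝ) = Pool.Agent.H739K.HYP.a N := by
  have h := (Pool.Agent.H739K.CONV_proof N hN).2.1
  unfold Pool.Agent.H739K.HYP.a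
  rw [← h, ← Nat.card_coe_set_eq]
  rfl

/-- **Theorem (`d = 2`).** There is `K` with `exp(-K (log n)²) C_n ≤ A_n ≤ C_{n-1}` for all even
`n ≥ 4`. -/
theorem result : ∃ K : ℝ, ∀ N : ℕ, 2 ≤ N →
    Real.exp (-(K * Real.log (2 * N) ^ 2)) * C (2 * N) ≤ A (2 * N) ∧
      A (2 * N) ≤ C (2 * N - 1) := by
  have hmu : 0 < H981.mu := H981.mu_pos
  have hmu2 : 2.43 ≤ H981.mu := Pool.Agent.H739K.mu_ge
  obtain ⟨-, K, hK, h⟩ := Pool.Agent.W387.Q.bnd
  obtain ⟨K1, hK1, hup⟩ := Pool.Agent.TH508.LT.ex2.up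
  refine ⟨K + K1 + Real.log H981.mu, fun N hN => ⟨?_, ?_⟩⟩
  · have hNr : (2 : ℝ) ≤ N := by exact_mod_cast hN
    have h1 := (h (2 * N - 1) (by omega) (by omega)).1
    have h2 := hup (2 * N) (by omega)
    have hL1 : 1 ≤ Real.log (2 * (N : ℝ)) := by
      rw [Real.le_log_iff_exp_le (by linarith)]
      have := Real.exp_one_lt_d9
      linarith
    have hlmu : 0 ≤ Real.log H981.mu := Real.log_nonneg (by linarith)
    have hlog : Real.log ((2 * N - 1 : ℕ) : ℝ) ≤ Real.log (2 * (N : ℝ)) := by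
      apply Real.log_le_log
      · exact_mod_cast (by omega : 0 < 2 * N - 1)
      · have : ((2 * N - 1 : ℕ) : ℝ) ≤ ((2 * N : ℕ) : ℝ) := by exact_mod_cast (by omega)
        push_cast at this ⊢
        exact this
    have hlog0 : 0 ≤ Real.log ((2 * N - 1 : ℕ) : ℝ) := Real.log_natCast_nonneg _
    have hlog9 : (Real.log ((2 * N - 1 : ℕ) : ℝ)) ^ 2 ≤ Real.log (2 * (N : ℝ)) ^ 2 :=
      pow_le_pow_left₀ hlog0 hlog 2
    have hL9 : (1 : ℝ) ≤ Real.log (2 * (N : ℝ)) ^ 2 := one_le_pow₀ hL1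
    have h1' : H981.mu ^ (2 * N - 1) * Real.exp (-(K * Real.log ((2 * N - 1 : ℕ) : ℝ) ^ 2)) ≤
        ((Pool.Agent.H739K.KP (2 * N - 1)).card : ℝ) := h1
    have h2' : H981.cr' (2 * N) ≤ H981.mu ^ (2 * N) *
        Real.exp (K1 * Real.log (2 * (N : ℝ)) ^ 2) := by
      have h3 : H981.cr' (2 * N) ≤ H981.mu ^ (2 * N) *
        Real.exp (K1 * Real.log ((2 * N : ℕ) : ℝ) ^ 2) := h2
      push_cast at h3
      exact h3
    rw [A_eq N hN, C_eq', Pool.Agent.H739K.SWR.card_eq_cr']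
    unfold Pool.Agent.H739K.HYP.a
    refine le_trans ?_ h1'
    have e1 : H981.mu ^ (2 * N) = H981.mu ^ (2 * N - 1) * Real.exp (Real.log H981.mu) := by
      rw [Real.exp_log hmu, ← pow_succ]
      congr 1
      omega
    calc Real.exp (-((K + K1 + Real.log H981.mu) * Real.log (2 * (N : ℝ)) ^ 2)) * H981.cr' (2 * N)
        ≤ Real.exp (-((K + K1 + Real.log H981.mu) * Real.log (2 * (N : ℝ)) ^ 2)) *
          (H981.mu ^ (2 * N - 1) * Real.exp (Real.log H981.mu) *
            Real.exp (K1 * Real.log (2 * (N : ℝ)) ^ 2)) := by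
          rw [← e1]
          exact mul_le_mul_of_nonneg_left h2' (Real.exp_pos _).le
      _ = H981.mu ^ (2 * N - 1) * (Real.exp (-((K + K1 + Real.log H981.mu) *
            Real.log (2 * (N : ℝ)) ^ 2)) * Real.exp (Real.log H981.mu) *
            Real.exp (K1 * Real.log (2 * (N : ℝ)) ^ 2)) := by ring
      _ ≤ H981.mu ^ (2 * N - 1) * Real.exp (-(K * Real.log ((2 * N - 1 : ℕ) : ℝ) ^ 2)) := by
          apply mul_le_mul_of_nonneg_left _ (by positivity)
          rw [← Real.exp_add, ← Real.exp_add]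
          apply Real.exp_le_exp.mpr
          nlinarith [mul_le_mul_of_nonneg_left hlog9 hK, mul_le_mul_of_nonneg_left hL9 hlmu]
  · have h3 : (A (2 * N) : ℝ) ≤ (C (2 * N - 1) : ℝ) := by
      rw [A_eq N hN, C_eq']
      unfold Pool.Agent.H739K.HYP.a Pool.Agent.H739K.KP
      exact_mod_cast Finset.card_filter_le _ _
    exact_mod_cast h3

end Pool.Agent.Results.MP_c0584e_pr.PolygonWalkRatio
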