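import Pool.Agent.TH508.LT.Msd
import Pool.Agent.W387.Q.Hyp
import Pool.Agent.H976R2.KConv

/-!
Self-avoiding polygons and walks on `ℤ²` (hyperscaling, `d = 2`): the exponents `α` and `ν` exist
as soon as they exist along sequences of lengths with gaps `o(√n)`.
-/

set_option autoImplicit false

namespace Pool.Agent.Results.MP_c0584e_pr.SparseExponents

open Filter Topology

/-- `ω` is a self-avoiding walk with `n` steps on `ℤ²`, started at the origin. -/
def IsSAW (n : ℕ) (ω : Fin (n + 1) → ℤ × ℤ) : Prop :=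
  ω 0 = (0, 0) ∧
  (∀ i : Fin n, |(ω i.succ).1 - (ω i.castSucc).1| + |(ω i.succ).2 - (ω i.castSucc).2| = 1) ∧
  Function.Injective ω

/-- the number `C_n` of `n`-step self-avoiding walks on `ℤ²` started at the origin -/
noncomputable def C (n : ℕ) : ℕ := Nat.card {ω : Fin (n + 1) → ℤ × ℤ // IsSAW n ω}

/-- The mean-square displacement `⟨|ω(n)|²⟩` of the uniform `n`-step self-avoiding walk. -/
noncomputable def msd (n : ℕ) : ℝ :=
  (∑ᶠ ω ∈ {ω | IsSAW n ω}, (((ω (Fin.last n)).1 : ℝ) ^ 2 + ((ω (Fin.last n)).2 : ℝ) ^ 2)) /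
    ({ω | IsSAW n ω}.ncard : ℝ)

/-- `f` is a self-avoiding polygon of length `n` as a rooted, oriented path: `f(0) = 0`, the points
`f(0), ..., f(n-1)` are distinct, consecutive points (cyclically) are neighbours. -/
def IsPolygon (n : ℕ) (f : ZMod n → ℤ × ℤ) : Prop :=
  f 0 = 0 ∧ Function.Injective f ∧
    ∀ i : ZMod n, |(f (i + 1)).1 - (f i).1| + |(f (i + 1)).2 - (f i).2| = 1

/-- the number `A_n` of rooted, oriented self-avoiding polygons of length `n` -/
noncomputable def A (n : ℕ) : ℕ := Nat.card {f : ZMod n → ℤ × ℤ // IsPolygon n f}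

open Pool.Agent.H976R2 in
lemma msd_eq (n : ℕ) : msd n = Pool.Agent.TH508.LT.Msd.mq n := by
  unfold msd Pool.Agent.TH508.LT.Msd.mq mom
  have h1 : {ω | IsSAW n ω} = {ω | Pool.Agent.H976R2.IsSAW n ω} := rfl
  rw [h1, finsum_saw, ncard_saw]
  congr 1
  refine Finset.sum_congr rfl (fun w hw => ?_)
  simp only [pth_last hw]; rfl

lemma A_eq (N : ℕ) (hN : 2 ≤ N) : (A (2 * N) : ℝ) = Pool.Agent.H739K.HYP.a N := by
  have h := (Pool.Agent.H739K.CONV_proof N hN).2.1
  unfold Pool.Agent.H739K.HYP.a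
  rw [← h, ← Nat.card_coe_set_eq]
  rfl

/-- **Theorem (`d = 2`).** Let `μ = lim C_n^(1/n)` and let `s_k → ∞` be a sequence of integers with
`(s_{k+1} - s_k) / √(s_k) → 0`. (1) If `log(μ^(-n) A_n) / log n → α - 2` along `n = 2 s_k`, then
along all even `n`. (2) If `log ⟨|ω(n)|²⟩ / log n → 2 ν` along `n = 2 s_k` and along
`n = 2 s_k + 1`, then along all `n`; the same for lengths of one parity. -/
theorem result : ∃ μ : ℝ, 0 < μ ∧
    Tendsto (fun n : ℕ => (C n : ℝ) ^ (1 / (n : ℝ))) atTop (𝓝 μ) ∧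
    ∀ s : ℕ → ℕ, Tendsto s atTop atTop →
      Tendsto (fun k => ((s (k + 1) : ℝ) - s k) / Real.sqrt (s k)) atTop (𝓝 0) →
      (∀ α : ℝ,
        Tendsto (fun k => Real.log ((A (2 * s k) : ℝ) / μ ^ (2 * s k)) /
          Real.log ((2 * s k : ℕ) : ℝ)) atTop (𝓝 (α - 2)) →
        Tendsto (fun N : ℕ => Real.log ((A (2 * N) : ℝ) / μ ^ (2 * N)) /
          Real.log ((2 * N : ℕ) : ℝ)) atTop (𝓝 (α - 2))) ∧
      (∀ (ν : ℝ) (ε : ℕ), ε ≤ 1 →
        Tendsto (fun k => Real.log (msd (2 * s k + ε)) / Real.log ((2 * s k + ε : ℕ) : ℝ))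
          atTop (𝓝 (2 * ν)) →
        Tendsto (fun m : ℕ => Real.log (msd (2 * m + ε)) / Real.log ((2 * m + ε : ℕ) : ℝ))
          atTop (𝓝 (2 * ν))) ∧
      ∀ ν : ℝ, (∀ ε : ℕ, ε ≤ 1 →
        Tendsto (fun k => Real.log (msd (2 * s k + ε)) / Real.log ((2 * s k + ε : ℕ) : ℝ))
          atTop (𝓝 (2 * ν))) →
        Tendsto (fun n : ℕ => Real.log (msd n) / Real.log (n : ℝ)) atTop (𝓝 (2 * ν)) := by
  have hmu : 0 < H981.mu := H981.mu_pos
  obtain ⟨C1, hC1⟩ := Pool.Agent.W387.Q.HYP.ra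
  have hra : ∀ N : ℕ, 2 ≤ N →
      |(A (2 * (N + 1)) : ℝ) / (H981.mu ^ 2 * A (2 * N)) - 1| ≤ C1 * Pool.Agent.W387.Q.rN N := by
    intro N hN
    rw [A_eq N hN, A_eq (N + 1) (by omega)]
    exact hC1 N hN
  have hpar : ∀ s : ℕ → ℕ, Tendsto s atTop atTop →
      Tendsto (fun k => ((s (k + 1) : ℝ) - s k) / Real.sqrt (s k)) atTop (𝓝 0) →
      ∀ (ν : ℝ) (ε : ℕ), ε ≤ 1 →
        Tendsto (fun k => Real.log (msd (2 * s k + ε)) / Real.log ((2 * s k + ε : ℕ) : ℝ))
          atTop (𝓝 (2 * ν)) →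
        Tendsto (fun m : ℕ => Real.log (msd (2 * m + ε)) / Real.log ((2 * m + ε : ℕ) : ℝ))
          atTop (𝓝 (2 * ν)) := by
    intro s hs hgap ν ε hε h
    simp only [msd_eq] at h ⊢
    exact Pool.Agent.TH508.LT.Msd.mq_exponent ε hε s hs hgap (2 * ν) h
  refine ⟨H981.mu, hmu, ?_, fun s hs hgap => ⟨fun α hc => ?_, hpar s hs hgap, fun ν h => ?_⟩⟩
  · have h := H981.tendsto_root
    simp only [H981.cr'_eq] at h
    exact h
  · refine Pool.Agent.W387.Q.exp_gen (fun N => (A (2 * N) : ℝ) / H981.mu ^ (2 * N)) C1 ?_ ?_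
        (fun n => Real.log ((2 * n : ℕ) : ℝ)) ?_ s hs (Pool.Agent.TH508.LT.gap2 s hs hgap) (α - 2) hc
    · intro N hN
      rw [A_eq N hN]
      have := Pool.Agent.H739K.HYP.a_pos hN
      positivity
    · intro N hN
      have h := hra N hN
      have e : (A (2 * (N + 1)) : ℝ) / (H981.mu ^ 2 * A (2 * N)) =
          (A (2 * (N + 1)) : ℝ) / H981.mu ^ (2 * (N + 1)) / ((A (2 * N) : ℝ) / H981.mu ^ (2 * N)) := by
        have h0 := Pool.Agent.H739K.HYP.a_pos hN
        rw [← A_eq N hN] at h0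
        rw [show 2 * (N + 1) = 2 * N + 2 by ring, pow_add]
        field_simp
      rw [e] at h
      exact h
    · intro n hn
      have hn' : (2 : ℝ) ≤ n := by exact_mod_cast hn
      push_cast
      rw [Real.log_mul (by norm_num) (by positivity), add_sub_cancel_right,
        abs_of_nonneg (Real.log_nonneg (by norm_num))]
      have := Real.log_two_lt_d9
      linarith
  · have h0 := hpar s hs hgap ν 0 (by norm_num) (h 0 (by norm_num))
    have h1 := hpar s hs hgap ν 1 le_rfl (h 1 le_rfl)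
    rw [Metric.tendsto_atTop] at h0 h1 ⊢
    intro δ hδ
    obtain ⟨M0, hM0⟩ := h0 δ hδ
    obtain ⟨M1, hM1⟩ := h1 δ hδ
    refine ⟨2 * (M0 + M1) + 2, fun n hn => ?_⟩
    rcases Nat.even_or_odd' n with ⟨m, hm | hm⟩
    · have := hM0 m (by omega)
      rw [add_zero, ← hm] at this
      exact this
    · have := hM1 m (by omega)
      rw [← hm] at this
      exact this

end Pool.Agent.Results.MP_c0584e_pr.SparseExponents
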